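import Pool.Agent.N526.CP.Stm
import Pool.Agent.N526.CP.Stm2

/-!
# Round caps are minimal fillings (PROJECT CPN): the anisotropic comass condition, larger radii
-/

set_option autoImplicit false

open MeasureTheory Metric Set Filter Topology InnerProductGeometry Matrix

namespace Pool.Agent.N979.CP

open Pool.Agent.H241R3.FV Pool.Agent.N526.CP

/-- The anisotropic condition for the sine `s` of the distance from the centre of the cap. -/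
def G2 (d : ℕ) (s : ℝ) : Prop := ∃ pr pt : ℝ, 0 < pr ∧ 0 < pt ∧ pr + d * pt = 1 ∧
  Ar d s * (1 - pr) ≤ (d + 1) * √(1 - s ^ 2) ^ 3 * kr d s ^ 2 ∧
  At d s * (1 - pt) ≤ (d + 1) * √(1 - s ^ 2) * kt d s ^ 2

/-- The condition on the sine `s` of the radius of the cap. -/
def Good2 (d : ℕ) (s : ℝ) : Prop := 0 < s ∧ s < 1 ∧ ∀ s' ∈ Icc 0 s, G2 d s'

/-- SCA: scalar inequality -/
def S_SCA : Prop := ∀ (n : ℕ) (p z : Fin n → ℝ), (∀ i, 0 ≤ p i) → ∑ i, p i = 1 →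
  (∑ i, p i * z i) ^ 2 ≤ ∏ i, (1 + p i * (z i ^ 2 - 1))

/-- HAD: Hadamard -/
def S_HAD : Prop := ∀ (n : ℕ) (A : Matrix (Fin n) (Fin n) ℝ), A.det ^ 2 ≤ ∏ i, ∑ j, A i j ^ 2

/-- KEY2: the key matrix inequality with weights -/
def S_KEY2 : Prop := ∀ (d : ℕ), 1 ≤ d → ∀ (B D : Matrix (Fin (d + 1)) (Fin (d + 1)) ℝ)
  (p : Fin (d + 1) → ℝ), (∀ i, 0 < p i) → ∑ i, p i = 1 →
  ∑ i, (∑ j, B i j ^ 2 + (1 - p i) / p i * ∑ j, D i j ^ 2) ≤ d + 1 →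
    |((B + D).adjugate * B).trace - d * (B + D).det| ≤ 1

/-- ABS2 -/
def S_ABS2 : Prop := ∀ (d : ℕ), 1 ≤ d → ∀ (Ω : Type) [MeasurableSpace Ω] (μ : Measure Ω)
  [IsProbabilityMeasure μ] (ν p a : Ω → E (d + 1)),
  Measurable ν → Measurable p → Measurable a → (∃ C : ℝ, ∀ ω, ‖ν ω‖ ≤ C ∧ ‖p ω‖ ≤ C) →
  (∀ᵐ ω ∂μ, ‖a ω‖ ≤ 1) →
  (∀ u v : E (d + 1), ∫ ω, inner ℝ (ν ω) u * inner ℝ (ν ω) v ∂μ = inner ℝ u v / (d + 1)) →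
  (∀ u v : E (d + 1), ∫ ω, inner ℝ (p ω) u * inner ℝ (ν ω) v ∂μ = inner ℝ u v) →
  ∀ (e : E (d + 1)) (pr pt : ℝ), ‖e‖ = 1 → 0 < pr → 0 < pt → pr + d * pt = 1 →
  (∀ v : E (d + 1), ∫ ω, inner ℝ (p ω) v ^ 2 ∂μ ≤
    (d + 1) / (1 - pt) * (‖v‖ ^ 2 - inner ℝ e v ^ 2) + (d + 1) / (1 - pr) * inner ℝ e v ^ 2) →
  ((Mx μ p a).adjugate * ((d + 1 : ℝ) • Mx μ ν a)).trace - d * (Mx μ p a).det ≤ 1

/-- EIG2 -/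
def S_EIG2 : Prop := ∀ (d : ℕ), 1 ≤ d → ∀ (X : E (d + 1)), ‖X‖ < 1 → G2 d ‖X‖ →
  (DZ X).PosDef ∧ ∃ (e : E (d + 1)) (pr pt : ℝ), ‖e‖ = 1 ∧ 0 < pr ∧ 0 < pt ∧ pr + d * pt = 1 ∧
  ∀ v : E (d + 1), ∫ θ, ip (cl ((DZ X)⁻¹ * L1 X) v) θ ^ 2 * √(1 - ip X θ ^ 2) ^ (d + 1)
    ∂(sg (d + 1)) ≤ √(1 - ‖X‖ ^ 2) * ((d + 1) / (1 - pt) * (‖v‖ ^ 2 - inner ℝ e v ^ 2) +
      (d + 1) / (1 - pr) * inner ℝ e v ^ 2)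

/-- COM1b -/
def S_COM1b : Prop := ∀ (d : ℕ), 1 ≤ d → ∀ (X : E (d + 1)), ‖X‖ < 1 → G2 d ‖X‖ →
  ∀ (a : Sph (d + 1) → E (d + 1)), Measurable a → (∀ᵐ θ ∂(sg (d + 1)), ‖a θ‖ ≤ 1) →
  (d + 1) * ∫ θ, (Vm X θ * Lm X a +
      vecMulVec (fun i => (θ : E (d + 1)) i) (fun i => a θ i)).det ∂(sg (d + 1)) -
    d * ((Lm X a).det * (√(1 - ‖X‖ ^ 2))⁻¹) ≤ 1

/-- COMb -/
def S_COMb : Prop := ∀ (d : ℕ), 1 ≤ d → ∀ (s : ℝ), Good2 d s → ∀ (X : E (d + 1)), ‖X‖ ≤ s →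
  ∀ (α : Sph (d + 1) → E (d + 1)), Measurable α →
  ∀ (G : Matrix (Fin (d + 1)) (Fin (d + 1)) ℝ), G.PosDef →
  (∀ᵐ θ ∂(sg (d + 1)), ∀ v, |inner ℝ (α θ) v| ≤ gnorm G v) →
  (d + 1) * ∫ θ, (Vm X θ * Lm X α +
      vecMulVec (fun i => (θ : E (d + 1)) i) (fun i => α θ i)).det ∂(sg (d + 1)) -
    d * ((Lm X α).det * (√(1 - ‖X‖ ^ 2))⁻¹) ≤ √G.det

/-- PTWb -/
def S_PTWb : Prop := ∀ (d : ℕ), 1 ≤ d →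
  ∀ (M : Type) [MetricSpace M] [CompactSpace M] (S : OFill (d + 1) M) (s : ℝ)
  (g : Sph (d + 1) → M → ℝ), Good2 d s → Fam S s g → ∀ i,
  ∀ᵐ p ∂(volume : Measure (E (d + 1))), p ∈ (S.chart i).U →
    (d + 1) * ∫ θ, (fderiv ℝ (Psi g θ ∘ (S.chart i).map) p).det ∂(sg (d + 1)) -
      d * (fderiv ℝ (Hf ∘ Xf g ∘ (S.chart i).map) p).det ≤ √((S.chart i).G p).det

/-- MAINb -/
def S_MAINb : Prop := ∀ (d : ℕ), 1 ≤ d → ∀ (ρ : ℝ),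
  0 < ρ → ρ < Real.pi / 2 → Good2 d (Real.sin ρ) → CapThm d ρ

/-- GX: closed form of the condition -/
def S_GX : Prop := ∀ (d : ℕ), 1 ≤ d → ∀ s : ℝ, 0 ≤ s → s < 1 →
  (d : ℝ) < (d + 1) * √(1 - s ^ 2) ^ 3 * kr d s ^ 2 / Ar d s +
    d * ((d + 1) * √(1 - s ^ 2) * kt d s ^ 2 / At d s) → G2 d s

/-- FN: two integrals over the sphere -/
def S_FN : Prop := ∀ (d : ℕ), 1 ≤ d → ∀ s : ℝ,
  (∫ θ : Sph (d + 1), (θ : E (d + 1)) 0 ^ 2 *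
    ((√(1 + (s * (θ : E (d + 1)) 0) ^ 2))⁻¹) ^ (d + 3) ∂(sg (d + 1)) =
      ((d + 1 : ℝ) * √(1 + s ^ 2) ^ 3)⁻¹) ∧
  (∫ θ : Sph (d + 1), (1 - (θ : E (d + 1)) 0 ^ 2) *
    ((√(1 + (s * (θ : E (d + 1)) 0) ^ 2))⁻¹) ^ (d + 3) ∂(sg (d + 1)) =
      d * ((d + 1 : ℝ) * √(1 + s ^ 2))⁻¹)

/-- GC: an explicit radius in all dimensions -/
def S_GC : Prop := ∀ (d : ℕ), 1 ≤ d → ∀ s : ℝ, 0 < s → s < 1 →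
  (d : ℝ) ≤ √(1 - s ^ 4) ^ 3 + d * √(1 - s ^ 4) → Good2 d s

/-- GA: dimension two -/
def S_GA : Prop := ∀ s : ℝ, 0 < s → s ≤ 947 / 1000 → Good2 1 s

/-- GB: dimension three -/
def S_GB : Prop := ∀ s : ℝ, 0 < s → s ≤ 22 / 25 → Good2 2 s

/-- GD4: dimension four -/
def S_GD4 : Prop := ∀ s : ℝ, 0 < s → s ≤ 33 / 40 → Good2 3 s

end Pool.Agent.N979.CP
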