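import Pool.Agent.N979.CP.Stm
import Pool.Agent.N979.CP.COMb
import Pool.Agent.N979.CP.PTWb
import Pool.Agent.N979.CP.MAINb
import Pool.Agent.N56.CP_SCA
import Pool.Agent.N7.CP_HAD
import Pool.Agent.N787.CP_KEY2
import Pool.Agent.N595.CP_ABS2
import Pool.Agent.N901.CP_EIG2
import Pool.Agent.N621.CP_COM1b
import Pool.Agent.N322.CP_GX
import Pool.Agent.N394.CP_FN
import Pool.Agent.N514.CP_GC
import Pool.Agent.N73.CP_GB
import Pool.Agent.N526.CP.BAL
import Pool.Agent.N526.CP.CAPS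
import Pool.Agent.N526.CP.CAPV
import Pool.Agent.N526.CP.CHA
import Pool.Agent.N526.CP.CHV
import Pool.Agent.N526.CP.DER
import Pool.Agent.N526.CP.DETV
import Pool.Agent.N526.CP.EXT
import Pool.Agent.N526.CP.FAM
import Pool.Agent.N526.CP.FUB
import Pool.Agent.N526.CP.GRAM
import Pool.Agent.N526.CP.HEM
import Pool.Agent.N526.CP.INV
import Pool.Agent.N526.CP.LIP
import Pool.Agent.N526.CP.LOC
import Pool.Agent.N526.CP.LZ
import Pool.Agent.N526.CP.MOM
import Pool.Agent.N526.CP.MON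
import Pool.Agent.N526.CP.NULag
import Pool.Agent.N526.CP.RAD
import Pool.Agent.N526.CP.RAP
import Pool.Agent.N526.CP.REF
import Pool.Agent.N526.CP.SPH
import Pool.Agent.N526.CP.STO
import Pool.Agent.N526.CP.TEL
import Pool.Agent.N526.CP.UDER
import Pool.Agent.N526.CP.VAN
import Pool.Agent.N526.CP.XDIF

/-!
# Round caps are minimal fillings (PROJECT CPN): assembly
-/

set_option autoImplicit false

open MeasureTheory Metric Set Filter Topology InnerProductGeometry Matrix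

namespace Pool.Agent.N979.CP.Fin

open Pool.Agent.H241R3.FV Pool.Agent.N526.CP Pool.Agent.N979.CP

theorem sph : S_SPH := SPH.t
theorem mon : S_MON := MON.t sph
theorem rad : S_RAD := RAD.t sph mon
theorem inv : S_INV := INV.t rad mon
theorem der : S_DER := DER.t sph rad mon inv
theorem uder : S_UDER := UDER.t
theorem rap : S_RAP := RAP.t
theorem xdif : S_XDIF := XDIF.t sph inv der rap
theorem detv : S_DETV := DETV.t
theorem chv : S_CHV := CHV.t
theorem lz : S_LZ := LZ.t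
theorem gram : S_GRAM := GRAM.t chv sph lz
theorem abs2 : S_ABS2 :=
  Pool.Agent.N595.CP_ABS2.main
    (Pool.Agent.N787.CPKEY2.main Pool.Agent.N56.CP_SCA.main Pool.Agent.N7.CP_HAD.main)
theorem eig2 : S_EIG2 := Pool.Agent.N901.CP.EIG2.main sph lz
theorem com1b : S_COM1b := Pool.Agent.N621.CPN2.main abs2 detv gram lz eig2 sph
theorem comb : S_COMb := COMb.t com1b
theorem ptwb : S_PTWb := PTWb.t comb sph inv der uder xdif
theorem lip : S_LIP := LIP.t sph inv rad uder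
theorem fub : S_FUB := FUB.t rap
theorem capv : S_CAPV := CAPV.t sph gram uder detv
theorem caps : S_CAPS := CAPS.t
theorem nul : S_NUL := NUL.t
theorem cha : S_CHA := CHA.t
theorem loc : S_LOC := LOC.t nul cha
theorem van : S_VAN := VAN.t cha loc
theorem tel : S_TEL := TEL.t cha van
theorem bal : S_BAL := BAL.t nul
theorem sto : S_STO := STO.t cha tel bal
theorem fam : S_FAM := FAM.t sph (EXT.t REF.t)
theorem mainb : S_MAINb := MAINb.t sph fam ptwb lip fub capv caps sto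
theorem hem : S_HEM := HEM.t
theorem gx : S_GX := Pool.Agent.N322.CPGX.main sph gram
theorem gb : S_GB := Pool.Agent.N73.CPGB.main sph gram gx
theorem gc : S_GC := Pool.Agent.N514.CPGC.main sph MOM.t (Pool.Agent.N394.CPFN.main sph chv) gx

/-- the simple radius in all dimensions -/
theorem simple_radius (d : ℕ) (hd : 1 ≤ d) (s : ℝ) (h0 : 0 < s) (h : (d + 4 : ℝ) * s ^ 4 ≤ 2) :
    s < 1 ∧ (d : ℝ) ≤ √(1 - s ^ 4) ^ 3 + d * √(1 - s ^ 4) := by
  have hd1 : (1 : ℝ) ≤ d := by exact_mod_cast hd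
  have h4 : s ^ 4 ≤ 2 / 5 := by
    have : 0 < s ^ 4 := by positivity
    nlinarith
  have hs1 : s < 1 := by
    by_contra hc
    have : 1 ≤ s := not_lt.1 hc
    have : 1 ≤ s ^ 4 := one_le_pow₀ this
    linarith
  refine ⟨hs1, ?_⟩
  set q := √(1 - s ^ 4) with hq
  have hq2 : q ^ 2 = 1 - s ^ 4 := Real.sq_sqrt (by linarith)
  have hq0 : 0 ≤ q := Real.sqrt_nonneg _
  -- `q² ≥ (d+2)/(d+4)`
  have hq3 : ((d : ℝ) + 2) / (d + 4) ≤ q ^ 2 := by
    rw [hq2, div_le_iff₀ (by positivity)]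
    linarith
  set m : ℝ := ((d : ℝ) + 2) / (d + 4) with hm
  have hm0 : 0 ≤ m := by positivity
  -- `q² (q² + d)² ≥ d²`
  have key : (d : ℝ) ^ 2 ≤ m * (m + d) ^ 2 := by
    have h5 : m * (d + 4) = d + 2 := by rw [hm]; field_simp
    have h6 : m = 1 - 2 / (d + 4) := by rw [hm]; field_simp; ring
    have hpos : (0 : ℝ) < (d + 4) ^ 3 := by positivity
    have h7 : m * (m + d) ^ 2 * (d + 4) ^ 3 = (d + 2) * (d + 2 + d * (d + 4)) ^ 2 := by
      calc m * (m + d) ^ 2 * (d + 4) ^ 3 = (m * (d + 4)) * (m * (d + 4) + d * (d + 4)) ^ 2 := by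
            ring
        _ = _ := by rw [h5]
    have h8 : (d : ℝ) ^ 2 * (d + 4) ^ 3 ≤ (d + 2) * (d + 2 + d * (d + 4)) ^ 2 := by
      have h9 : (d + 2) * (d + 2 + d * (d + 4)) ^ 2 - (d : ℝ) ^ 2 * (d + 4) ^ 3 =
          (d : ℝ) ^ 3 + 14 * d ^ 2 + 44 * d + 8 - 0 := by ring
      have h10 : 0 ≤ (d : ℝ) ^ 3 + 14 * d ^ 2 + 44 * d + 8 := by positivity
      linarith
    rw [← h7] at h8
    exact le_of_mul_le_mul_right h8 hpos
  have h11 : (d : ℝ) ^ 2 ≤ (q ^ 3 + d * q) ^ 2 := by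
    have h12 : (q ^ 3 + d * q) ^ 2 = q ^ 2 * (q ^ 2 + d) ^ 2 := by ring
    rw [h12]
    refine key.trans ?_
    have : m + d ≤ q ^ 2 + d := by linarith
    gcongr
  exact le_of_sq_le_sq h11 (by positivity)

end Pool.Agent.N979.CP.Fin
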