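import Pool.Agent.N979.CP.Fin
import Pool.Agent.N335.CP_GA
import Pool.Agent.N195.CP_GD4

/-!
# Round caps are minimal fillings (PROJECT CPN): the main theorem with the larger radii
-/

set_option autoImplicit false

open MeasureTheory Metric Set Filter Topology InnerProductGeometry Matrix

namespace Pool.Agent.N979.CP.Fin

open Pool.Agent.H241R3.FV Pool.Agent.N526.CP Pool.Agent.N979.CP

/-- `Good` is the special case `p_r = p_t = 1 / n` of `Good2`. -/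
theorem good2_of_good {d : ℕ} (_hd : 1 ≤ d) {s : ℝ} (h : Good d s) : Good2 d s := by
  refine ⟨h.1, h.2.1, fun s' hs' => ?_⟩
  obtain ⟨h1, h2⟩ := h.2.2 s' hs'
  have hn : (0 : ℝ) < (d : ℝ) + 1 := by positivity
  have e : 1 - 1 / ((d : ℝ) + 1) = d / (d + 1) := by field_simp; ring
  refine ⟨1 / (d + 1), 1 / (d + 1), by positivity, by positivity, by field_simp; ring, ?_, ?_⟩
  · rw [e, ← mul_div_assoc, div_le_iff₀ hn]
    calc Ar d s' * d = d * Ar d s' := by ring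
      _ ≤ _ := h1
      _ = _ := by ring
  · rw [e, ← mul_div_assoc, div_le_iff₀ hn]
    calc At d s' * d = d * At d s' := by ring
      _ ≤ _ := h2
      _ = _ := by ring

theorem good2_all {d : ℕ} (hd : 1 ≤ d) {s : ℝ} (hs0 : 0 < s)
    (h : (d = 1 ∧ s ≤ 947 / 1000) ∨ (d = 2 ∧ s ≤ 22 / 25) ∨ (d = 3 ∧ s ≤ 33 / 40) ∨
      (d + 4) * s ^ 4 ≤ 2 ∨ (s < 1 ∧ (d : ℝ) ≤ √(1 - s ^ 4) ^ 3 + d * √(1 - s ^ 4)) ∨
      Good2 d s) : Good2 d s := by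
  rcases h with ⟨rfl, h⟩ | ⟨rfl, h⟩ | ⟨rfl, h⟩ | h | h | h
  · exact Pool.Agent.N335.CPGA.main sph gram gx s hs0 h
  · exact gb s hs0 h
  · exact Pool.Agent.N195.CPGD4.main sph gram gx s hs0 h
  · obtain ⟨h1, h2⟩ := simple_radius d hd s hs0 h
    exact gc d hd s hs0 h1 h2
  · exact gc d hd s hs0 h.1 h.2
  · exact h

/-- The cap theorem with the larger radii. -/
theorem cap_all {d : ℕ} (hd : 1 ≤ d) {ρ : ℝ} (h0 : 0 < ρ) (h1 : ρ < Real.pi / 2)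
    (h : (d = 1 ∧ Real.sin ρ ≤ 947 / 1000) ∨ (d = 2 ∧ Real.sin ρ ≤ 22 / 25) ∨
      (d = 3 ∧ Real.sin ρ ≤ 33 / 40) ∨ (d + 4) * Real.sin ρ ^ 4 ≤ 2 ∨
      (d : ℝ) ≤ √(1 - Real.sin ρ ^ 4) ^ 3 + d * √(1 - Real.sin ρ ^ 4) ∨
      Good2 d (Real.sin ρ)) : CapThm d ρ := by
  have hs : 0 < Real.sin ρ := Real.sin_pos_of_pos_of_lt_pi h0 (by linarith [Real.pi_pos])
  have hs1 : Real.sin ρ < 1 := by
    rw [← Real.sin_pi_div_two]
    exact Real.sin_lt_sin_of_lt_of_le_pi_div_two (by linarith [Real.pi_pos]) le_rfl h1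
  refine mainb d hd ρ h0 h1 (good2_all hd hs ?_)
  rcases h with h | h | h | h | h | h
  · exact Or.inl h
  · exact Or.inr (Or.inl h)
  · exact Or.inr (Or.inr (Or.inl h))
  · exact Or.inr (Or.inr (Or.inr (Or.inl h)))
  · exact Or.inr (Or.inr (Or.inr (Or.inr (Or.inl ⟨hs1, h⟩))))
  · exact Or.inr (Or.inr (Or.inr (Or.inr (Or.inr h))))

/-- Both parts. -/
theorem result_all (d : ℕ) (hd : 1 ≤ d) (ρ : ℝ) (h0 : 0 < ρ) (h1 : ρ < Real.pi / 2)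
    (hρ : (d = 1 ∧ Real.sin ρ ≤ 947 / 1000) ∨ (d = 2 ∧ Real.sin ρ ≤ 22 / 25) ∨
      (d = 3 ∧ Real.sin ρ ≤ 33 / 40) ∨ (d + 4) * Real.sin ρ ^ 4 ≤ 2 ∨
      (d : ℝ) ≤ √(1 - Real.sin ρ ^ 4) ^ 3 + d * √(1 - Real.sin ρ ^ 4) ∨
      Good2 d (Real.sin ρ))
    (M : Type) [MetricSpace M] [CompactSpace M] (S : OFill (d + 1) M) :
    ((∀ x y, capDist ρ x y ≤ dist (S.bd x) (S.bd y)) →
      ENNReal.ofReal ((sig (d + 1)).real univ * ∫ t in (0 : ℝ)..ρ, Real.sin t ^ d) ≤ S.vol) ∧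
    (RoundCollar S ρ →
      (volume : Measure (E (d + 2))).toSphere univ / 2 ≤
        S.vol + ENNReal.ofReal
          ((sig (d + 1)).real univ * ∫ t in ρ..(Real.pi / 2), Real.sin t ^ d)) :=
  ⟨cap_all hd h0 h1 hρ M S, hem d hd ρ h0 h1 (cap_all hd h0 h1 hρ) M S⟩

end Pool.Agent.N979.CP.Fin
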