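import Pool.Agent.N979.CP.Stm

/-!
# Orientable fillings of the round sphere: larger constants (PROJECT FB)
-/

set_option autoImplicit false

open MeasureTheory Metric Set Filter Topology InnerProductGeometry Matrix

namespace Pool.Agent.N979.CP

open Pool.Agent.H241R3.FV Pool.Agent.N526.CP

/-- `g θ` are `1/R`-Lipschitz functions on `M` with the boundary values `arcsin (t ⟨x, θ⟩) / R`. -/
structure FamG {d : ℕ} {M : Type} [MetricSpace M] (S : OFill (d + 1) M) (s t R : ℝ)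
    (g : Sph (d + 1) → M → ℝ) : Prop where
  lip : ∀ θ q q', |g θ q - g θ q'| ≤ dist q q' / R
  lipθ : ∃ C : ℝ, ∀ θ θ' q, |g θ q - g θ' q| ≤ C * ‖(θ : E (d + 1)) - (θ' : E (d + 1))‖
  bdv : ∀ θ x, g θ (S.bd x) = Real.arcsin (t * inner ℝ (x : E (d + 1)) (θ : E (d + 1))) / R
  range : ∀ q, ‖∫ θ : Sph (d + 1), g θ q • (θ : E (d + 1)) ∂(sg (d + 1))‖ ≤ zf d s

/-- the parameters -/
def Par (d : ℕ) (s t R : ℝ) : Prop :=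
  0 < s ∧ s < 1 ∧ 0 < t ∧ t < 1 ∧ 0 < R ∧ zf d t = R * zf d s

/-- FAMG -/
def S_FAMG : Prop := ∀ (d : ℕ), 1 ≤ d → ∀ (M : Type) [MetricSpace M]
  [CompactSpace M] (S : OFill (d + 1) M),
  (∀ x y : Sph (d + 1), angle (x : E (d + 1)) (y : E (d + 1)) ≤ dist (S.bd x) (S.bd y)) →
  ∀ s t R : ℝ, Par d s t R → ∃ g : Sph (d + 1) → M → ℝ, FamG S s t R g

/-- the map `Ψ_θ` on the ball -/
noncomputable def Psi0G {d : ℕ} (s t R : ℝ) (θ : Sph (d + 1)) (y : E (d + 1)) : E (d + 1) :=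
  Uf θ (s • y) + (Real.arcsin (t * ip y θ) / R) • (θ : E (d + 1))

/-- XDIFG -/
def S_XDIFG : Prop := ∀ (d : ℕ), 1 ≤ d → ∀ (M : Type) [MetricSpace M]
  [CompactSpace M] (S : OFill (d + 1) M) (s t R : ℝ) (g : Sph (d + 1) → M → ℝ), Par d s t R →
  FamG S s t R g → ∀ i, ∀ᵐ p ∂(volume : Measure (E (d + 1))), p ∈ (S.chart i).U →
    ∃ α : Sph (d + 1) → E (d + 1), Measurable α ∧
      (∀ᵐ θ ∂(sg (d + 1)), HasFDerivAt (g θ ∘ (S.chart i).map) (innerSL ℝ (α θ)) p) ∧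
      (∀ᵐ θ ∂(sg (d + 1)), ∀ v, |inner ℝ (α θ) v| ≤ gnorm ((S.chart i).G p) v / R) ∧
      HasFDerivAt (Xf g ∘ (S.chart i).map) (cl (Lm (Xf g ((S.chart i).map p)) α)) p

/-- PTWG -/
def S_PTWG : Prop := ∀ (d : ℕ), 1 ≤ d →
  ∀ (M : Type) [MetricSpace M] [CompactSpace M] (S : OFill (d + 1) M) (s t R : ℝ)
  (g : Sph (d + 1) → M → ℝ), Good2 d s → Par d s t R → FamG S s t R g → ∀ i,
  ∀ᵐ p ∂(volume : Measure (E (d + 1))), p ∈ (S.chart i).U →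
    (d + 1) * ∫ θ, (fderiv ℝ (Psi g θ ∘ (S.chart i).map) p).det ∂(sg (d + 1)) -
      d * (fderiv ℝ (Hf ∘ Xf g ∘ (S.chart i).map) p).det ≤ √((S.chart i).G p).det / R ^ (d + 1)

/-- LIPG -/
def S_LIPG : Prop := ∀ (d : ℕ), 1 ≤ d → ∀ (M : Type) [MetricSpace M] [CompactSpace M]
  (S : OFill (d + 1) M) (s t R : ℝ) (g : Sph (d + 1) → M → ℝ), Par d s t R → FamG S s t R g →
  ∃ K : NNReal, (∀ θ, LipschitzWith K (Psi g θ)) ∧ LipschitzWith K (Hf ∘ Xf g) ∧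
    (∀ θ : Sph (d + 1), LipschitzOnWith K (Psi0G s t R θ) (closedBall 0 1)) ∧
    LipschitzOnWith K (fun y : E (d + 1) => Hf (s • y)) (closedBall 0 1) ∧
    (∀ (θ x : Sph (d + 1)), Psi g θ (S.bd x) = Psi0G s t R θ (x : E (d + 1))) ∧
    (∀ x : Sph (d + 1), Hf (Xf g (S.bd x)) = Hf (s • (x : E (d + 1)))) ∧
    Continuous (fun z : Sph (d + 1) × M => Psi g z.1 z.2)

/-- the double integral -/
noncomputable def JJ (d : ℕ) (s t : ℝ) : ℝ :=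
  ∫ y in ball (0 : E (d + 1)) 1, ∫ θ : Sph (d + 1),
    (√(1 - (t * ip y θ) ^ 2))⁻¹ * ((√(1 - (s * ip y θ) ^ 2))⁻¹) ^ d ∂(sg (d + 1))

/-- CAPVG -/
def S_CAPVG : Prop := ∀ (d : ℕ), 1 ≤ d → ∀ (s t R : ℝ), 0 < s → s < 1 → 0 < t → t < 1 → 0 < R →
  (d + 1) * ∫ θ, (∫ y in ball (0 : E (d + 1)) 1, (fderiv ℝ (Psi0G s t R θ) y).det) ∂(sg (d + 1)) -
    d * ∫ y in ball (0 : E (d + 1)) 1, (fderiv ℝ (fun y : E (d + 1) => Hf (s • y)) y).det =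
    (d + 1) * s ^ d * (t / R) * JJ d s t - d * capv d s

/-- the lower bound -/
noncomputable def low (d : ℕ) (s t R : ℝ) : ℝ :=
  R ^ (d + 1) * ((d + 1) * s ^ d * (t / R) * JJ d s t - d * capv d s)

/-- MAING -/
def S_MAING : Prop := ∀ (d : ℕ), 1 ≤ d → ∀ (M : Type) [MetricSpace M]
  [CompactSpace M] (S : OFill (d + 1) M),
  (∀ x y : Sph (d + 1), angle (x : E (d + 1)) (y : E (d + 1)) ≤ dist (S.bd x) (S.bd y)) →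
  ∀ s t R : ℝ, Good2 d s → Par d s t R → ENNReal.ofReal (low d s t R) ≤ S.vol

/-- ZF2 -/
def S_ZF2 : Prop := ∀ s : ℝ, 0 < s → s ≤ 1 →
  zf 2 s = Real.arcsin s / 2 - (Real.arcsin s - s * √(1 - s ^ 2)) / (4 * s ^ 2)

/-- JJ2 -/
def S_JJ2 : Prop := ∀ s t : ℝ, 0 < s → s < 1 → 0 < t → t < 1 →
  JJ 2 s t = 2 * Real.pi * ∫ w in (0 : ℝ)..1,
    (1 - w ^ 2) * ((√(1 - (t * w) ^ 2))⁻¹ * ((√(1 - (s * w) ^ 2))⁻¹) ^ 2)

/-- LO2 -/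
def S_LO2 : Prop := ∃ s t R : ℝ, s ≤ 22 / 25 ∧ Par 2 s t R ∧ 41 / 50 * Real.pi ^ 2 ≤ low 2 s t R

/-- ZF3 -/
def S_ZF3 : Prop := ∀ s : ℝ, 0 < s → s ≤ 1 →
  zf 3 s = 4 / Real.pi * ∫ u in (0 : ℝ)..1, u * Real.arcsin (s * u) * √(1 - u ^ 2)

/-- JJ3 -/
def S_JJ3 : Prop := ∀ s t : ℝ, 0 < s → s < 1 → 0 < t → t < 1 →
  JJ 3 s t = 8 * Real.pi / 3 * ∫ w in (0 : ℝ)..1,
    √(1 - w ^ 2) ^ 3 * ((√(1 - (t * w) ^ 2))⁻¹ * ((√(1 - (s * w) ^ 2))⁻¹) ^ 3)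

/-- LO3 -/
def S_LO3 : Prop := ∃ s t R : ℝ, s ≤ 33 / 40 ∧ Par 3 s t R ∧
  73 / 100 * (4 * Real.pi ^ 2 / 3) ≤ low 3 s t R

end Pool.Agent.N979.CP
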