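import Pool.Agent.N979.CP.Top
import Pool.Agent.N979.CP.Stm4
import Pool.Agent.N787.FB_FAMG
import Pool.Agent.N701.FB_XDIFG
import Pool.Agent.N136.FB_PTWG
import Pool.Agent.N335.FB_LIPG
import Pool.Agent.N531.FB_CAPVG
import Pool.Agent.N252.FB_MAING
import Pool.Agent.N615.FB_ZF2
import Pool.Agent.N615.FB_ZF3
import Pool.Agent.N622.FB_JJ2

/-!
# Orientable fillings of the round sphere: larger constants (PROJECT FB), assembly
-/

set_option autoImplicit false

open MeasureTheory Metric Set Filter Topology InnerProductGeometry Matrix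

namespace Pool.Agent.N979.CP.FB

open Pool.Agent.H241R3.FV Pool.Agent.N526.CP Pool.Agent.N979.CP

theorem maing : S_MAING :=
  Pool.Agent.N252.FB_MAING.main Pool.Agent.N787.FBFAMG.main
    (Pool.Agent.N136.FBPTWG.main Pool.Agent.N701.FB_XDIFG.main) Pool.Agent.N335.FBLIPG.main
    Pool.Agent.N531.FB.CAPVG.main

/-- half the volume of the unit sphere of `ℝ⁴` -/
theorem hem4 : (volume : Measure (E 4)).toSphere univ / 2 = ENNReal.ofReal (Real.pi ^ 2) := by
  rw [Measure.toSphere_apply_univ]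
  simp only [finrank_euclideanSpace, Fintype.card_fin]
  rw [InnerProductSpace.volume_ball_of_dim_even (k := 2) (by simp)]
  simp only [finrank_euclideanSpace, Fintype.card_fin, ENNReal.ofReal_one, one_pow, one_mul]
  rw [show ((4 : ℕ) : ENNReal) = ENNReal.ofReal 4 by simp, ← ENNReal.ofReal_mul (by norm_num),
    show (2 : ENNReal) = ENNReal.ofReal 2 by simp, ← ENNReal.ofReal_div_of_pos (by norm_num)]
  congr 1
  norm_num [Nat.factorial]
  ring

/-- half the volume of the unit sphere of `ℝ⁵` -/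
theorem hem5 : (volume : Measure (E 5)).toSphere univ / 2 =
    ENNReal.ofReal (4 * Real.pi ^ 2 / 3) := by
  rw [Measure.toSphere_apply_univ]
  simp only [finrank_euclideanSpace, Fintype.card_fin]
  rw [InnerProductSpace.volume_ball_of_dim_odd (k := 2) (by simp)]
  simp only [finrank_euclideanSpace, Fintype.card_fin, ENNReal.ofReal_one, one_pow, one_mul]
  rw [show ((5 : ℕ) : ENNReal) = ENNReal.ofReal 5 by simp, ← ENNReal.ofReal_mul (by norm_num),
    show (2 : ENNReal) = ENNReal.ofReal 2 by simp, ← ENNReal.ofReal_div_of_pos (by norm_num)]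
  congr 1
  norm_num [Nat.factorial, Nat.doubleFactorial]
  ring

/-- the general lower bound -/
theorem bound {d : ℕ} (hd : 1 ≤ d) {M : Type} [MetricSpace M] [CompactSpace M]
    (S : OFill (d + 1) M)
    (hS : ∀ x y : Sph (d + 1), angle (x : E (d + 1)) (y : E (d + 1)) ≤ dist (S.bd x) (S.bd y))
    {s t R : ℝ} (hs : (d = 2 ∧ s ≤ 22 / 25) ∨ (d = 3 ∧ s ≤ 33 / 40) ∨ (d + 4) * s ^ 4 ≤ 2 ∨
      Good2 d s) (hP : Par d s t R) : ENNReal.ofReal (low d s t R) ≤ S.vol := by
  refine maing d hd M S hS s t R (Fin.good2_all hd hP.1 ?_) hP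
  rcases hs with h | h | h | h
  · exact Or.inr (Or.inl h)
  · exact Or.inr (Or.inr (Or.inl h))
  · exact Or.inr (Or.inr (Or.inr (Or.inl h)))
  · exact Or.inr (Or.inr (Or.inr (Or.inr (Or.inr h))))

theorem two (h : S_LO2) {M : Type} [MetricSpace M] [CompactSpace M] (S : OFill 3 M)
    (hS : ∀ x y : Sph 3, angle (x : E 3) (y : E 3) ≤ dist (S.bd x) (S.bd y)) :
    ENNReal.ofReal (41 / 50) * ((volume : Measure (E 4)).toSphere univ / 2) ≤ S.vol := by
  obtain ⟨s, t, R, h1, h2, h3⟩ := h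
  rw [hem4, ← ENNReal.ofReal_mul (by norm_num)]
  exact (ENNReal.ofReal_le_ofReal h3).trans
    (bound (d := 2) (by norm_num) S hS (Or.inl ⟨rfl, h1⟩) h2)

theorem three (h : S_LO3) {M : Type} [MetricSpace M] [CompactSpace M] (S : OFill 4 M)
    (hS : ∀ x y : Sph 4, angle (x : E 4) (y : E 4) ≤ dist (S.bd x) (S.bd y)) :
    ENNReal.ofReal (73 / 100) * ((volume : Measure (E 5)).toSphere univ / 2) ≤ S.vol := by
  obtain ⟨s, t, R, h1, h2, h3⟩ := h
  rw [hem5, ← ENNReal.ofReal_mul (by norm_num)]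
  exact (ENNReal.ofReal_le_ofReal h3).trans
    (bound (d := 3) (by norm_num) S hS (Or.inr (Or.inl ⟨rfl, h1⟩)) h2)

end Pool.Agent.N979.CP.FB
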